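import Pool.Agent.H.MP_9d9f8d_ag.D

set_option autoImplicit false

namespace Pool.Agent.Uni

open Pool.Agent.PdFun Pool.Agent.PdSym MvPolynomial

variable {k : Type} [Field k] {σ : Type} [Fintype σ] [DecidableEq σ]

lemma lower {J N : Ideal (MvPolynomial σ k)} {E E' : Set (σ →₀ ℕ)} (hE : Up E) (hE' : Up E')
    (hJ : J ≤ MI k E) (hN : N ≤ MI k E') (B : Finset (σ →₀ ℕ))
    (h1 : ∀ b ∈ B, monomial b (1 : k) ∈ J) (h2 : ∀ b ∈ B, ∀ v ∈ E, v ≤ b → v = b)
    (h3 : ∀ b ∈ B, b ∉ E') : B.card ≤ (Submodule.map N.mkQ J).spanFinrank := by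
  obtain ⟨s, hs, hs'⟩ := Submodule.FG.exists_span_finset_card_eq_spanFinrank
    (p := Submodule.map N.mkQ J) (IsNoetherian.noetherian _)
  have : ∀ x : s, ∃ g ∈ J, N.mkQ g = x := fun x =>
    (show (x : _ ⧸ N) ∈ Submodule.map N.mkQ J from hs' ▸ Submodule.subset_span x.2)
  choose g hg hg' using this
  let φ : MvPolynomial σ k →ₗ[k] (B → k) := LinearMap.pi fun b => lcoeff k b.1
  have key : ∀ f ∈ Ideal.span (Set.range g), f ∈ J ∧ φ f ∈ Submodule.span k
      (Set.range fun x => φ (g x)) := by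
    intro f hf
    induction hf using Submodule.span_induction with
    | mem f hf =>
      obtain ⟨x, rfl⟩ := hf
      exact ⟨hg x, Submodule.subset_span ⟨x, rfl⟩⟩
    | zero => simp
    | add f f' _ _ h h' => exact ⟨add_mem h.1 h'.1, map_add φ f f' ▸ add_mem h.2 h'.2⟩
    | smul r f _ h =>
      refine ⟨J.smul_mem r h.1, ?_⟩
      have : φ (r • f) = coeff 0 r • φ f := by
        funext b
        change coeff b.1 (r * f) = coeff 0 r * coeff b.1 f
        rw [coeff_mul, Finset.sum_eq_single (0, b.1) (fun q hq h0 => ?_) (by simp)]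
        have e := Finset.HasAntidiagonal.mem_antidiagonal.1 hq
        refine mul_eq_zero_of_right _ (by_contra fun h4 => h0 ?_)
        have e2 := h2 _ b.2 q.2 ((mem_MI hE).1 (hJ h.1) _ (mem_support_iff.2 h4))
          (e ▸ le_add_self)
        exact Prod.ext (by simpa [e2] using e) e2
      exact this ▸ Submodule.smul_mem _ _ h.2
  have top : Submodule.span k (Set.range fun x => φ (g x)) = ⊤ := by
    rw [eq_top_iff, ← (Pi.basisFun k B).span_eq, Submodule.span_le]
    rintro _ ⟨b, rfl⟩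
    have a1 : N.mkQ (monomial b.1 1) ∈ Submodule.map N.mkQ (Ideal.span (Set.range g)) := by
      rw [Ideal.span, Submodule.map_span, ← Set.range_comp,
        show N.mkQ ∘ g = Subtype.val from funext hg', Subtype.range_coe, hs']
      exact Submodule.mem_map_of_mem (h1 _ b.2)
    obtain ⟨f, hf, e⟩ := a1
    have a2 : φ (f - monomial b.1 1) = 0 := funext fun c => by_contra fun h4 => h3 _ c.2
      ((mem_MI hE').1 (hN ((Submodule.Quotient.eq N).1 e)) _ (mem_support_iff.2 h4))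
    have a3 : φ (monomial b.1 1) = Pi.basisFun k B b := by
      funext c
      simp [φ, coeff_monomial, Pi.single_apply, eq_comm]
    rw [map_sub, sub_eq_zero, a3] at a2
    exact a2 ▸ (key f hf).2
  have := finrank_range_le_card (R := k) fun x => φ (g x)
  rw [Set.finrank, top] at this
  simpa [hs] using this

omit [Fintype σ] [DecidableEq σ] in
lemma upper (N : Ideal (MvPolynomial σ k)) {E : Set (σ →₀ ℕ)} (G : Finset (σ →₀ ℕ))
    (h1 : ∀ g ∈ G, g ∈ E) (h2 : ∀ x ∈ E, ∃ g ∈ G, g ≤ x) :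
    (Submodule.map N.mkQ (MI k E)).spanFinrank ≤ G.card := by
  have : MI k E = MI k G := by
    refine le_antisymm (Ideal.span_le.2 ?_) (MI_mono h1)
    rintro _ ⟨x, hx, rfl⟩
    obtain ⟨g, hg, h⟩ := h2 x hx
    exact mem_ideal_span_monomial_image.2 fun m hm =>
      ⟨g, hg, by rwa [Finset.mem_singleton.1 (support_monomial_subset hm)]⟩
  rw [this, MI, Ideal.span, Submodule.map_span, ← Set.image_comp]
  exact (Submodule.spanFinrank_span_le_ncard_of_finite (G.finite_toSet.image _)).trans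
    ((Set.ncard_image_le G.finite_toSet).trans (by simp))

/-- Exponents with large weight on a set of variables. -/
def SE (C : Finset σ) (m : ℕ) : Set (σ →₀ ℕ) := {x | m ≤ ∑ v ∈ C, x v}

omit [Fintype σ] [DecidableEq σ] in
lemma SE_up (C : Finset σ) (m : ℕ) : Up (SE C m) := fun x hx y => by
  simp only [SE, Set.mem_ofPred_eq, Finsupp.add_apply, Finset.sum_add_distrib] at *
  omega

omit [Fintype σ] in
lemma VG_pow (C : Finset σ) : ∀ m, MI k (VG C) ^ m = MI k (SE C m)
  | 0 => by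
    rw [pow_zero, Ideal.one_eq_top, eq_comm, Ideal.eq_top_iff_one]
    exact mono_mem_MI (m := 0) (by simp [SE])
  | m + 1 => by
    rw [pow_succ, VG_pow C m]
    refine MI_mul fun x => ⟨fun h => ?_, ?_⟩
    · obtain ⟨v, hv, h1⟩ := Finset.exists_ne_zero_of_sum_ne_zero
        (show ∑ v ∈ C, x v ≠ 0 by simp only [SE, Set.mem_ofPred_eq] at h; omega)
      have e : x - Finsupp.single v 1 + Finsupp.single v 1 = x :=
        tsub_add_cancel_of_le (Finsupp.single_le_iff.2 (by omega))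
      refine ⟨_, ?_, _, ⟨v, hv, by simp⟩, e⟩
      rw [← e] at h
      simp only [SE, Set.mem_ofPred_eq, Finsupp.add_apply, Finset.sum_add_distrib,
        Finsupp.single_apply, Finset.sum_ite_eq, if_pos hv] at h ⊢
      omega
    · rintro ⟨a, ha, b, ⟨v, hv, hb⟩, rfl⟩
      have := Finset.single_le_sum (f := fun v => b v) (fun _ _ => zero_le) hv
      simp only [SE, Set.mem_ofPred_eq, Finsupp.add_apply, Finset.sum_add_distrib] at *
      omega

variable (k) in
/-- Squarefree monomial ideals. -/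
noncomputable abbrev FI (A : Set (Finset σ)) : Ideal (MvPolynomial σ k) :=
  Ideal.span {p | ∃ F ∈ A, p = ∏ v ∈ F, X v}

/-- Covers. -/
def Cov (A : Set (Finset σ)) (C : Finset σ) : Prop := ∀ F ∈ A, ∃ v ∈ F, v ∈ C

/-- Exponents of the symbolic power. -/
def SY (A : Set (Finset σ)) (m : ℕ) : Set (σ →₀ ℕ) := {x | ∀ C, Cov A C → x ∈ SE C m}

omit [Fintype σ] [DecidableEq σ] in
lemma SY_up (A : Set (Finset σ)) (m : ℕ) : Up (SY A m) := fun x hx y C hC =>
  SE_up C m x (hx C hC) y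

lemma symb (A : Set (Finset σ)) (m : ℕ) :
    ⨅ P ∈ (FI k A).minimalPrimes, P ^ m = MI k (SY A m) := by
  classical
  have h1 : ∀ C, Cov A C → FI k A ≤ MI k (VG C) := fun C hC => Ideal.span_le.2 (by
    rintro _ ⟨F, hF, rfl⟩
    obtain ⟨v, hv, h⟩ := hC F hF
    exact Ideal.mem_of_dvd _ (Finset.dvd_prod_of_mem _ hv) (X_mem_VG.2 h))
  refine le_antisymm (fun f hf => (mem_MI (SY_up A m)).2 fun x hx C hC => ?_)
    (le_iInf₂ fun P hP => ?_)
  · have := VG_prime (k := k) C
    obtain ⟨P, hP, h⟩ := Ideal.exists_minimalPrimes_le (h1 C hC)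
    have h2 := Ideal.pow_right_mono h m ((iInf₂_le P hP : ⨅ P ∈ _, P ^ m ≤ _) hf)
    rw [VG_pow] at h2
    exact (mem_MI (SE_up C m)).1 h2 x hx
  · have hC : Cov A (Finset.univ.filter fun v => X v ∈ P) := fun F hF => by
      simpa using (hP.1.1.prod_mem_iff).1 (hP.1.2 (Ideal.subset_span ⟨F, hF, rfl⟩))
    refine le_trans (MI_mono fun x hx => hx _ hC) ?_
    rw [← VG_pow]
    refine Ideal.pow_right_mono ?_ m
    rw [MI_VG, Ideal.span_le]
    rintro _ ⟨v, hv, rfl⟩
    simpa using hv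

lemma deg {A : Set (Finset σ)} (c : ℕ) (h : ∀ F ∈ A, c ≤ F.card) (m : ℕ) :
    FI k A ^ m ≤ MI k (SE Finset.univ (c * m)) := by
  rw [← VG_pow, pow_mul]
  refine Ideal.pow_right_mono (Ideal.span_le.2 ?_) m
  rintro _ ⟨F, hF, rfl⟩
  refine Ideal.pow_le_pow_right (h F hF) ?_
  rw [← Finset.prod_const]
  exact Ideal.prod_mem_prod fun v _ => X_mem_VG.2 (Finset.mem_univ v)

/-- Vectors. -/
noncomputable abbrev vec (f : σ → ℕ) : σ →₀ ℕ := Finsupp.equivFunOnFinite.symm f

lemma v7 {a b c d w : ℕ} (h0 : a ≤ w) (h1 : b ≤ w) (h2 : c ≤ w) (h3 : d ≤ w) (i : Fin 7) :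
    ![a, b, c, d, w, w, w] i ≤ w := by
  fin_cases i <;> simp [*]

lemma v7' {a b c d w : ℕ} {z : Fin 7 → ℕ} (h0 : a ≤ z 0) (h1 : b ≤ z 1) (h2 : c ≤ z 2)
    (h3 : d ≤ z 3) (h4 : w ≤ z 4) (h5 : w ≤ z 5) (h6 : w ≤ z 6) (i : Fin 7) :
    ![a, b, c, d, w, w, w] i ≤ z i := by
  fin_cases i <;> simp [*]

lemma two {A : Set (Finset (Fin 7))} (hA : ∀ F, F ∈ A ↔ F.card = 3)
    (N : Ideal (MvPolynomial (Fin 7) k)) (m : ℕ) :
    (Submodule.map N.mkQ (MI k (SY A m))).spanFinrank ≤ 5040 * (m + 1) ^ 4 := by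
  let w : (Fin 4 → Fin (m + 1)) → ℕ := fun u =>
    max (max (max (u 0) (u 1)) (max (u 2) (u 3))) (m - (u 0 + u 1 + u 2 + u 3))
  let y : (Fin 4 → Fin (m + 1)) → Fin 7 → ℕ := fun u => ![u 0, u 1, u 2, u 3, w u, w u, w u]
  refine (upper N (Finset.univ.image fun p : Equiv.Perm (Fin 7) × (Fin 4 → Fin (m + 1)) =>
    vec (y p.2 ∘ p.1.symm)) ?_ ?_).trans (Finset.card_image_le.trans (by
      simp [Fintype.card_perm, Nat.factorial]))
  · simp only [Finset.mem_image, Finset.mem_univ, true_and]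
    rintro _ ⟨⟨e, u⟩, rfl⟩ C (hC : ∀ F ∈ A, ∃ v ∈ F, v ∈ C)
    have h1 : Cᶜ.card ≤ 2 := by
      by_contra h
      obtain ⟨F, hF, h2⟩ := Finset.exists_subset_card_eq (show 3 ≤ Cᶜ.card by omega)
      obtain ⟨v, hv, h3⟩ := hC F ((hA F).2 h2)
      exact Finset.mem_compl.1 (hF hv) h3
    have h2 : ∀ i, y u i ≤ w u := v7 (by simp only [w]; omega) (by simp only [w]; omega)
      (by simp only [w]; omega) (by simp only [w]; omega)
    have h3 := Finset.sum_le_card_nsmul Cᶜ (fun v => y u (e.symm v)) (w u) fun v _ => h2 _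
    have h4 := Finset.sum_add_sum_compl C fun v => y u (e.symm v)
    rw [Equiv.sum_comp e.symm (y u), Fin.sum_univ_seven] at h4
    have h5 := Nat.mul_le_mul_right (w u) h1
    change m ≤ ∑ v ∈ C, y u (e.symm v)
    have h6 : m - (u 0 + u 1 + u 2 + u 3) ≤ w u := le_max_right _ _
    change _ = u 0 + u 1 + u 2 + u 3 + w u + w u + w u at h4
    rw [smul_eq_mul] at h3
    omega
  · intro x hx
    set e := Tuple.sort x
    have hm : Monotone (x ∘ e) := Tuple.monotone_sort x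
    have h1 := hx (({0, 1, 2, 3, 4} : Finset (Fin 7)).map e.toEmbedding) fun F hF => by
      by_contra h
      push Not at h
      have := Finset.card_le_univ (F ∪ ({0, 1, 2, 3, 4} : Finset (Fin 7)).map e.toEmbedding)
      rw [Finset.card_union_of_disjoint (Finset.disjoint_left.2 h), (hA F).1 hF,
        Finset.card_map] at this
      revert this
      decide
    simp only [SE, Set.mem_ofPred_eq, Finset.sum_map] at h1
    rw [Finset.sum_insert (by decide), Finset.sum_insert (by decide), Finset.sum_insert (by decide),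
      Finset.sum_insert (by decide), Finset.sum_singleton] at h1
    simp only [Equiv.coe_toEmbedding] at h1
    have m0 : x (e 0) ≤ x (e 4) := hm (by decide)
    have m1 : x (e 1) ≤ x (e 4) := hm (by decide)
    have m2 : x (e 2) ≤ x (e 4) := hm (by decide)
    have m3 : x (e 3) ≤ x (e 4) := hm (by decide)
    have m5 : x (e 4) ≤ x (e 5) := hm (by decide)
    have m6 : x (e 4) ≤ x (e 6) := hm (by decide)
    let u : Fin 4 → Fin (m + 1) := fun i => ⟨min (x (e (i.castLE (by omega)))) m, by omega⟩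
    refine ⟨_, Finset.mem_image_of_mem _ (Finset.mem_univ (e, u)), fun v => ?_⟩
    obtain ⟨i, rfl⟩ := e.surjective v
    have u0 : (u 0 : ℕ) = min (x (e 0)) m := rfl
    have u1 : (u 1 : ℕ) = min (x (e 1)) m := rfl
    have u2 : (u 2 : ℕ) = min (x (e 2)) m := rfl
    have u3 : (u 3 : ℕ) = min (x (e 3)) m := rfl
    have hw : w u ≤ x (e 4) := by simp only [w, u0, u1, u2, u3]; omega
    change y u (e.symm (e i)) ≤ _
    rw [e.symm_apply_apply]
    exact v7' (z := fun i => x (e i)) (u0 ▸ min_le_left _ _) (u1 ▸ min_le_left _ _)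
      (u2 ▸ min_le_left _ _) (u3 ▸ min_le_left _ _) hw (hw.trans m5) (hw.trans m6) i

lemma tight {C C' : Finset σ} (h : C ∪ C' = Finset.univ) {m : ℕ} {b v : σ →₀ ℕ}
    (h1 : ∑ i ∈ C, b i = m) (h2 : ∑ i ∈ C', b i = m) (hv : v ∈ SE C m ∩ SE C' m) (h3 : v ≤ b) :
    v = b := by
  ext i
  rcases Finset.mem_union.1 (h ▸ Finset.mem_univ i) with hi | hi
  · exact (Finset.sum_eq_sum_iff_of_le fun j _ => h3 j).1
      (le_antisymm (Finset.sum_le_sum fun j _ => h3 j) (h1 ▸ hv.1)) i hi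
  · exact (Finset.sum_eq_sum_iff_of_le fun j _ => h3 j).1
      (le_antisymm (Finset.sum_le_sum fun j _ => h3 j) (h2 ▸ hv.2)) i hi

lemma low {A : Set (Finset σ)} {C C' : Finset σ} (h : C ∪ C' = Finset.univ) (hC : Cov A C)
    (hC' : Cov A C') {m D L : ℕ} {N : Ideal (MvPolynomial σ k)} (hN : N ≤ MI k (SE Finset.univ D))
    (x : (Fin 5 → Fin L) → σ → ℕ) (hx : Function.Injective x) (h1 : ∀ u, ∑ i ∈ C, x u i = m)
    (h2 : ∀ u, ∑ i ∈ C', x u i = m) (h3 : ∀ u, ∑ i, x u i < D)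
    (h4 : ∀ u C, Cov A C → ∑ i ∈ Cᶜ, x u i + m ≤ ∑ i, x u i) :
    L ^ 5 ≤ (Submodule.map N.mkQ (MI k (SY A m))).spanFinrank := by
  refine le_trans ?_ (lower (E := SE C m ∩ SE C' m) (fun a ha b => ⟨SE_up _ _ a ha.1 b,
    SE_up _ _ a ha.2 b⟩) (SE_up _ _) (MI_mono (E := SY A m) fun v hv => ⟨hv C hC, hv C' hC'⟩) hN
    (Finset.univ.image fun u => vec (x u)) ?_ ?_ ?_)
  · rw [Finset.card_image_of_injective (f := fun u => vec (x u)) _
      fun a b h => hx (Finsupp.equivFunOnFinite.symm.injective h)]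
    simp
  all_goals simp only [Finset.mem_image, Finset.mem_univ, true_and]
  · rintro _ ⟨u, rfl⟩
    refine mono_mem_MI fun C hC => ?_
    have := h4 u C hC
    have := Finset.sum_add_sum_compl C (x u)
    change m ≤ ∑ i ∈ C, x u i
    omega
  · rintro _ ⟨u, rfl⟩ v hv h5
    exact tight h (h1 u) (h2 u) hv h5
  · rintro _ ⟨u, rfl⟩ h5
    exact (h3 u).not_ge h5

end Pool.Agent.Uni
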