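import Pool.Agent.H.MP_2a0133_al.A

set_option autoImplicit false

namespace Pool.Agent.Uni

open Pool.Agent.PdFun Pool.Agent.PdSym MvPolynomial

variable {k : Type} [Field k]

lemma cov_card {A : Set (Finset (Fin 7))} {c : ℕ} {T C : Finset (Fin 7)} (hT : T.card = c + 1)
    (hA : ∀ F, F.card = c + 1 → F ≠ T → F ∈ A) (hC : Cov A C) : Cᶜ.card ≤ c ∨ Cᶜ = T := by
  by_contra h
  push Not at h
  have : ∃ F ⊆ Cᶜ, F.card = c + 1 ∧ F ≠ T := by
    by_contra h1
    push Not at h1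
    obtain ⟨F, hF, h2⟩ := Finset.exists_subset_card_eq (show c + 1 ≤ Cᶜ.card by omega)
    have h3 := h1 F hF h2
    subst h3
    obtain ⟨v, hv, h4⟩ := Finset.exists_of_ssubset (hF.ssubset_of_ne h.2.symm)
    obtain ⟨u, hu⟩ := Finset.card_pos.1 (show 0 < F.card by omega)
    have h5 := h1 (insert v (F.erase u)) (Finset.insert_subset hv
      ((Finset.erase_subset _ _).trans hF)) (by
        rw [Finset.card_insert_of_notMem (fun h => h4 (Finset.mem_of_mem_erase h)),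
          Finset.card_erase_of_mem hu]
        omega)
    exact h4 (h5 ▸ Finset.mem_insert_self _ _)
  obtain ⟨F, hF, h2, h3⟩ := this
  obtain ⟨v, hv, h4⟩ := hC F (hA F h2 h3)
  exact Finset.mem_compl.1 (hF hv) h4

lemma one {A : Set (Finset (Fin 7))} (hA : ∀ F, F ∈ A ↔ F.card = 2) (m : ℕ) (hm : 40 ≤ m) :
    (m / 40) ^ 5 ≤ (Submodule.map (FI k A ^ m).mkQ (MI k (SY A m))).spanFinrank := by
  have cv : ∀ j : Fin 7, Cov A {j}ᶜ := fun j F hF => by
    obtain ⟨a, b, h, rfl⟩ := Finset.card_eq_two.1 ((hA F).1 hF)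
    by_cases h1 : a = j
    · exact ⟨b, by simp, by simpa [← h1] using h.symm⟩
    · exact ⟨a, by simp, by simpa using h1⟩
  let t : (Fin 5 → Fin (m / 40)) → ℕ := fun u => m - (u 0 + u 1 + u 2 + u 3 + u 4 + 1)
  have sc : ∀ (j : Fin 7) (z : Fin 7 → ℕ), ∑ i ∈ {j}ᶜ, z i + z j = ∑ i, z i := fun j z => by
    rw [← Finset.sum_compl_add_sum {j}, Finset.sum_singleton]
  have ht : ∀ u, t u + (u 0 + u 1 + u 2 + u 3 + u 4 + 1) = m ∧ u 0 + 1 ≤ t u ∧ u 1 ≤ t u ∧
      u 2 ≤ t u ∧ u 3 ≤ t u ∧ u 4 ≤ t u := fun u => by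
    have := (u 0).2; have := (u 1).2; have := (u 2).2; have := (u 3).2; have := (u 4).2
    simp only [t]
    omega
  let x : (Fin 5 → Fin (m / 40)) → Fin 7 → ℕ := fun u => ![t u, t u, u 0 + 1, u 1, u 2, u 3, u 4]
  have hs : ∀ u, ∑ i, x u i = m + t u := fun u => by
    rw [Fin.sum_univ_seven]
    change t u + t u + (u 0 + 1) + u 1 + u 2 + u 3 + u 4 = _
    have := ht u
    omega
  refine low (C := {0}ᶜ) (C' := {1}ᶜ) (by decide) (cv 0) (cv 1)
    (deg 2 (fun F hF => ((hA F).1 hF).ge) m) x (fun u u' h => ?_) (fun u => ?_) (fun u => ?_)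
    (fun u => ?_) fun u C hC => ?_
  · have h0 : (u 0 : ℕ) + 1 = u' 0 + 1 := congrFun h 2
    have h1 : (u 1 : ℕ) = u' 1 := congrFun h 3
    have h2 : (u 2 : ℕ) = u' 2 := congrFun h 4
    have h3 : (u 3 : ℕ) = u' 3 := congrFun h 5
    have h4 : (u 4 : ℕ) = u' 4 := congrFun h 6
    funext i
    fin_cases i
    exacts [Fin.ext (Nat.succ_injective h0), Fin.ext h1, Fin.ext h2, Fin.ext h3, Fin.ext h4]
  · have := sc 0 (x u)
    rw [hs] at this
    exact Nat.add_right_cancel this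
  · have := sc 1 (x u)
    rw [hs] at this
    exact Nat.add_right_cancel this
  · have := ht u
    rw [hs]
    omega
  · have h1 : Cᶜ.card ≤ 1 := by
      by_contra h
      obtain ⟨F, hF, h2⟩ := Finset.exists_subset_card_eq (show 2 ≤ Cᶜ.card by omega)
      obtain ⟨v, hv, h3⟩ := hC F ((hA F).2 h2)
      exact Finset.mem_compl.1 (hF hv) h3
    have h2 : ∀ i, x u i ≤ t u := fun i => by
      obtain ⟨-, h0, h1, h2, h3, h4⟩ := ht u
      fin_cases i
      exacts [le_rfl, le_rfl, h0, h1, h2, h3, h4]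
    have h3 := Finset.sum_le_card_nsmul Cᶜ (fun i => x u i) (t u) fun v _ => h2 _
    have h5 := Nat.mul_le_mul_right (t u) h1
    rw [smul_eq_mul] at h3
    rw [hs]
    omega

lemma exch {T S : Finset (Fin 7)} (h : T.card ≤ S.card) {z : Fin 7 → ℕ} {M : ℕ}
    (h1 : ∀ i ∈ S, M ≤ z i) (h2 : ∀ i ∉ S, z i ≤ M) : ∑ i ∈ T, z i ≤ ∑ i ∈ S, z i := by
  have a1 := Finset.sum_inter_add_sum_sdiff T S fun i => z i
  have a2 := Finset.sum_inter_add_sum_sdiff S T fun i => z i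
  have a3 := Finset.card_sdiff_add_card_inter T S
  have a4 := Finset.card_sdiff_add_card_inter S T
  rw [Finset.inter_comm S T] at a2 a4
  have a5 := Finset.sum_le_card_nsmul (T \ S) (fun i => z i) M fun i hi => h2 i (Finset.mem_sdiff.1 hi).2
  have a6 := Finset.card_nsmul_le_sum (S \ T) (fun i => z i) M fun i hi => h1 i (Finset.mem_sdiff.1 hi).1
  have a7 := Nat.mul_le_mul_right M (show (T \ S).card ≤ (S \ T).card by omega)
  rw [smul_eq_mul] at a5 a6
  omega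

/-- The points used for the top skeleton. -/
def pt (a b m : ℕ) (u : Fin 5 → ℕ) : Fin 7 → ℕ := ![a + u 0, a + u 1,
    m - (a + u 0 + (a + u 1)), b + u 2, b + u 3, b + u 4, m - (b + u 2 + (b + u 3) + (b + u 4))]

lemma pt_inj {a b m : ℕ} {u u' : Fin 5 → ℕ} (h : pt a b m u = pt a b m u') : u = u' := by
  have h0 : a + u 0 = a + u' 0 := congrFun h 0
  have h1 : a + u 1 = a + u' 1 := congrFun h 1
  have h2 : b + u 2 = b + u' 2 := congrFun h 3
  have h3 : b + u 3 = b + u' 3 := congrFun h 4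
  have h4 : b + u 4 = b + u' 4 := congrFun h 5
  funext i
  fin_cases i
  exacts [Nat.add_left_cancel h0, Nat.add_left_cancel h1, Nat.add_left_cancel h2,
    Nat.add_left_cancel h3, Nat.add_left_cancel h4]

lemma pt1 {a b m : ℕ} {u : Fin 5 → ℕ} (h : a + u 0 + (a + u 1) ≤ m) :
    ∑ i ∈ {0, 1, 2}, pt a b m u i = m := by
  rw [Finset.sum_insert (by decide), Finset.sum_insert (by decide), Finset.sum_singleton]
  change a + u 0 + (a + u 1 + (m - (a + u 0 + (a + u 1)))) = m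
  omega

lemma pt2 {a b m : ℕ} {u : Fin 5 → ℕ} (h : b + u 2 + (b + u 3) + (b + u 4) ≤ m) :
    ∑ i ∈ {3, 4, 5, 6}, pt a b m u i = m := by
  rw [Finset.sum_insert (by decide), Finset.sum_insert (by decide),
    Finset.sum_insert (by decide), Finset.sum_singleton]
  change b + u 2 + (b + u 3 + (b + u 4 + (m - (b + u 2 + (b + u 3) + (b + u 4))))) = m
  omega

lemma pt3 {a b m M : ℕ} {u : Fin 5 → ℕ} (b0 : M ≤ a) (b2 : M ≤ m - (a + u 0 + (a + u 1)))
    (b3 : b + u 2 ≤ M) (b4 : b + u 3 ≤ M) (b5 : b + u 4 ≤ M)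
    (b6 : m - (b + u 2 + (b + u 3) + (b + u 4)) ≤ M) {T : Finset (Fin 7)} (h : T.card ≤ 3) :
    ∑ i ∈ T, pt a b m u i ≤ ∑ i ∈ {0, 1, 2}, pt a b m u i := by
  refine exch h (M := M) (fun i hi => ?_) fun i hi => ?_
  · have : i = 0 ∨ i = 1 ∨ i = 2 := by simpa using hi
    rcases this with rfl | rfl | rfl
    exacts [b0.trans le_self_add, b0.trans le_self_add, b2]
  · have : i = 3 ∨ i = 4 ∨ i = 5 ∨ i = 6 := by
      revert i
      decide
    rcases this with rfl | rfl | rfl | rfl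
    exacts [b3, b4, b5, b6]

lemma three {A : Set (Finset (Fin 7))} (hA : ∀ F, F ∈ A ↔ F.card = 4 ∧ F ≠ {3, 4, 5, 6}) (m : ℕ)
    (hm : 400 ≤ m) :
    (m / 400) ^ 5 ≤ (Submodule.map (FI k A ^ m).mkQ (MI k (SY A m))).spanFinrank := by
  obtain ⟨L, hL⟩ : ∃ L, L = m / 400 := ⟨_, rfl⟩
  obtain ⟨a, ha⟩ : ∃ a, a = m / 3 := ⟨_, rfl⟩
  obtain ⟨b, hb⟩ : ∃ b, b = m / 4 := ⟨_, rfl⟩
  rw [← hL]
  let x : (Fin 5 → Fin L) → Fin 7 → ℕ := fun u => pt a b m fun i => u i
  have s1 : ∀ u, ∑ i ∈ {0, 1, 2}, x u i = m := fun u => pt1 (by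
    have := (u 0).2; have := (u 1).2
    omega)
  have s2 : ∀ u, ∑ i ∈ {3, 4, 5, 6}, x u i = m := fun u => pt2 (by
    have := (u 2).2; have := (u 3).2; have := (u 4).2
    omega)
  have hs : ∀ u, ∑ i, x u i = m + m := fun u => by
    rw [← Finset.sum_add_sum_compl {0, 1, 2}, s1,
      show ({0, 1, 2} : Finset (Fin 7))ᶜ = {3, 4, 5, 6} by decide, s2]
  have c1 : ∀ F : Finset (Fin 7), F.card = 4 ∧ F ≠ {3, 4, 5, 6} →
    ∃ v ∈ F, v ∈ ({0, 1, 2} : Finset (Fin 7)) := by decide +kernel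
  have c2 : ∀ F : Finset (Fin 7), F.card = 4 ∧ F ≠ {3, 4, 5, 6} →
    ∃ v ∈ F, v ∈ ({3, 4, 5, 6} : Finset (Fin 7)) := by decide +kernel
  refine low (C := {0, 1, 2}) (C' := {3, 4, 5, 6}) (by decide) (fun F hF => c1 F ((hA F).1 hF))
    (fun F hF => c2 F ((hA F).1 hF)) (deg 4 (fun F hF => ((hA F).1 hF).1.ge) m) x
    (fun u u' h => funext fun i => Fin.ext (congrFun (pt_inj h) i)) s1 s2
    (fun u => by rw [hs]; omega) fun u C hC => ?_
  rw [hs, Nat.add_le_add_iff_right]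
  rcases cov_card (c := 3) (T := {3, 4, 5, 6}) (by decide)
    (fun F h h' => (hA F).2 ⟨h, h'⟩) hC with h | h
  · have := (u 0).2; have := (u 1).2; have := (u 2).2; have := (u 3).2; have := (u 4).2
    exact (pt3 (M := b + L + 3) (by omega) (by omega) (by omega) (by omega) (by omega)
      (by omega) h).trans (s1 u).le
  · rw [h, s2]

lemma big {m c : ℕ} (hc : 0 < c) (h : c * (5040 * (c + 1) ^ 4 + c + 1) ≤ m) :
    5040 * (m + 1) ^ 4 < (m / c) ^ 5 := by
  have h1 : 5040 * (c + 1) ^ 4 + c + 1 ≤ m / c := (Nat.le_div_iff_mul_le hc).2 (mul_comm c _ ▸ h)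
  have h2 : m + 1 ≤ (c + 1) * (m / c) := by
    have := Nat.div_add_mod m c
    have := Nat.mod_lt m hc
    rw [add_mul]
    omega
  calc 5040 * (m + 1) ^ 4 ≤ 5040 * ((c + 1) * (m / c)) ^ 4 := by gcongr
    _ = 5040 * (c + 1) ^ 4 * (m / c) ^ 4 := by ring
    _ < m / c * (m / c) ^ 4 := Nat.mul_lt_mul_of_pos_right (by omega) (by
      have : 0 < m / c := by omega
      positivity)
    _ = _ := by ring

end Pool.Agent.Uni
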